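import Mathlib

set_option autoImplicit false

/-!
Project DR (MP_77d7e7_ag): the tensor rank of the determinant is at most `C ^ n * n ^ (21 n / 25)`,
hence the same holds for the Waring rank.  Definitions shared by all pieces.
-/

namespace Pool.Agent.Helper26.DR

open Equiv Finset

/-- The function `D` of a square matrix is a linear combination of `r` row products: products over
the rows `i` of a linear form in row `i`. -/
def RK (ι : Type) [Fintype ι] (D : Matrix ι ι ℂ → ℂ) (r : ℕ) : Prop :=
  ∃ (c : Fin r → ℂ) (u : Fin r → ι → ι → ℂ), ∀ A : Matrix ι ι ℂ,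
    D A = ∑ t, c t * ∏ i, ∑ j, u t i j * A i j

/-- The determinant of `ι × ι` matrices is a linear combination of `r` row products. -/
def TR (ι : Type) [Fintype ι] [DecidableEq ι] (r : ℕ) : Prop := RK ι Matrix.det r

/-- The function of a matrix attached to a function on the symmetric group. -/
noncomputable def PF {ι : Type} [Fintype ι] [DecidableEq ι] (f : Perm ι → ℂ)
    (A : Matrix ι ι ℂ) : ℂ := ∑ σ, f σ * ∏ i, A i (σ i)

/-- the sign as a complex number -/
noncomputable def sg {ι : Type} [Fintype ι] [DecidableEq ι] (σ : Perm ι) : ℂ :=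
  ((Perm.sign σ : ℤ) : ℂ)

/-- the sign of the permutations preserving the map `g`, zero on the others -/
noncomputable def eps {ι Γ : Type} [Fintype ι] [DecidableEq ι] [DecidableEq Γ] (g : ι → Γ)
    (σ : Perm ι) : ℂ := if ∀ i, g (σ i) = g i then sg σ else 0

/-- the number of permutations preserving the map `g` -/
def yg {ι Γ : Type} [Fintype ι] [DecidableEq ι] [DecidableEq Γ] (g : ι → Γ) : ℕ :=
  #{σ : Perm ι | ∀ i, g (σ i) = g i}

/-- the function on the symmetric group attached to `τ` -/
noncomputable def FT {ι Γ Γ' : Type} [Fintype ι] [DecidableEq ι] [DecidableEq Γ] [DecidableEq Γ']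
    (g : ι → Γ) (g' : ι → Γ') (τ σ : Perm ι) : ℂ :=
  sg τ * ∑ π : Perm ι, eps g π * eps g' (σ * π⁻¹ * τ⁻¹)

/-- the table of a permutation: how many points of the class `a` of `g` go to the class `b` of
`g'` -/
def tab {ι Γ Γ' : Type} [Fintype ι] [DecidableEq Γ] [DecidableEq Γ'] (g : ι → Γ) (g' : ι → Γ')
    (τ : Perm ι) : Γ → Γ' → ℕ := fun a b => #{i : ι | g i = a ∧ g' (τ i) = b}

/-! ### Colourings -/

/-- weight of the entry `(i, l)` for a colouring with the colours `1, …, j`; colour `0` means
outside. -/
noncomputable def cw {n j : ℕ} (s : Fin n → Fin (j + 1)) (i l : Fin n) : ℂ :=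
  if s i = 0 then (if l = i ∨ s l ≠ 0 then 1 else 0)
  else (if l ≠ i ∧ s l = s i then 1 else 0)

/-- sign of a colouring -/
noncomputable def cs {n j : ℕ} (s : Fin n → Fin (j + 1)) : ℂ := ∏ i, if s i = 0 then 1 else -1

/-- the row product of a colouring -/
noncomputable def ct {n j : ℕ} (s : Fin n → Fin (j + 1)) (A : Matrix (Fin n) (Fin n) ℂ) : ℂ :=
  cs s * ∏ i, ∑ l, cw s i l * A i l

/-- the colourings using all colours `1, …, j` -/
def XC (n j : ℕ) : Finset (Fin n → Fin (j + 1)) := {s | ∀ c : Fin (j + 1), c ≠ 0 → ∃ i, s i = c}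

/-- an upper bound for the number of set partitions -/
def bb (n : ℕ) : ℕ := ∑ j ∈ range (n + 1), (j + 1) ^ n / j.factorial

/-- the number of terms of one step of the recursion, general parameters -/
def S1 (K M : ℕ) : ℕ := (M + K - 1).choose K * bb K

theorem S1_eq (K M : ℕ) : S1 K M = (M + K - 1).choose K * bb K := rfl

/-- the number of terms of one step of the recursion (do not unfold closed terms: the kernel would
evaluate them) -/
def S0 : ℕ := S1 1000 2000

theorem S0_eq : S0 = S1 1000 2000 := rfl

end Pool.Agent.Helper26.DR
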